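import Pool.Agent.H91R2.SC.Main

/-!
André's supercharacter theory of `U_n(F_q)` is the coarsest supercharacter theory containing all
single box characters.
-/

namespace Pool.Agent.Results.MP_1f99fc_al.AndreCoarsest

open Pool.Agent.H91R2.SC

/-- Let `n ≥ 2`, let `F` be a finite field and `θ` a nontrivial additive character of `F`.  For every
single box `(i, j)`, `i < j`, with label `a ≠ 0` there is exactly one irreducible character of
`U_n(F)` attached to it.  There is a supercharacter theory `A` of `U_n(F)` which is the theory of
André (its superclasses are the sets `{g | g - 1 ∈ U (x - 1) U}` and its supercharacters are positive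
multiples of the orbit sums); every such theory contains all single box characters, and it is
coarser than or equal to every supercharacter theory containing all single box characters. -/
theorem result (n : ℕ) (_hn : 2 ≤ n) (F : Type) [Field F] [Finite F] (θ : AddChar F ℂ)
    (hθ : θ ≠ 1) :
    (∀ (i j : Fin n) (a : F), i < j → a ≠ 0 → ∃! chi : Irr (UT n F), IsBoxChar θ i j a chi) ∧
    (∃ A : SupercharTheory (UT n F), IsAndreTheory θ A) ∧
    (∀ A : SupercharTheory (UT n F), IsAndreTheory θ A →
      (∀ (i j : Fin n) (a : F) (chi : Irr (UT n F)), i < j → a ≠ 0 → IsBoxChar θ i j a chi →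
        Contains A chi) ∧
      (∀ T : SupercharTheory (UT n F),
        (∀ (i j : Fin n) (a : F) (chi : Irr (UT n F)), i < j → a ≠ 0 → IsBoxChar θ i j a chi →
          Contains T chi) → CoarserEq A T)) := by
  let _ : Fintype F := Fintype.ofFinite F
  refine ⟨?_, ⟨andre θ hθ, andre_isAndre hθ⟩, ?_⟩
  · intro i j a hij _
    obtain ⟨chi, h1, h2⟩ := exists_boxChar hθ i j hij a
    refine ⟨chi, h1, fun psi hpsi => ?_⟩
    have h3 : psi ∈ Xset θ (box i j a) := B_of_posMultiple _ psi hpsi
    rw [Xset_box hθ i j hij a chi h2] at h3
    exact h3
  · intro A hA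
    have hX := isAndre_X hθ A hA
    have hK : A.K = (andre θ hθ).K := hA.1
    refine ⟨fun i j a chi hij _ h => ?_, fun T hT => ?_⟩
    · have h1 := andre_contains hθ i j hij a chi h
      unfold Contains at h1 ⊢
      rw [hX]
      exact h1
    · have h1 := andre_coarsest hθ T hT
      unfold CoarserEq at h1 ⊢
      rw [hX, hK]
      exact h1

end Pool.Agent.Results.MP_1f99fc_al.AndreCoarsest
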